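import Mathlib
import Pool.Agent.H560.SQ.Final

/-!
# The parity of the number of prime factors in every interval around every square, `q` even
-/

set_option autoImplicit false

namespace Pool.Agent.Results.MP_73869e_nt.EverySquareBothParities

open Polynomial

/-- The number of irreducible factors of `f`, with multiplicity. -/
noncomputable def numFactors {K : Type} [Field K] (f : K[X]) : ℕ :=
  Multiset.card (UniqueFactorizationMonoid.factors f)

/-- The `q ^ h` polynomials `f` with `deg (f - A²) < h`. -/
def Near {K : Type} [Field K] (A : K[X]) (h : ℕ) : Set K[X] :=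
  {f : K[X] | (f - A ^ 2).degree < (h : WithBot ℕ)}

/-- Let `K` be a finite field with an even number `q` of elements and let `ε > 0`. There is `h₀` such
that for all `h ≥ h₀` and ALL monic `A` with `h ≤ 2 deg A`: among the `q ^ h` polynomials `f` with
`deg (f - A²) < h` half, up to at most `ε q ^ h`, have an odd number of irreducible factors; of the
`(1 - 1/q) q ^ h` squarefree ones half, up to at most `ε q ^ h`, have an odd number and half have an
even number of irreducible factors. -/
theorem result (K : Type) [Field K] [Fintype K] [CharP K 2] (ε : ℝ) (hε : 0 < ε) :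
    ∃ h₀ : ℕ, ∀ h : ℕ, h₀ ≤ h → ∀ A : K[X], A.Monic → h ≤ 2 * A.natDegree →
      |({f ∈ Near A h | Odd (numFactors f)}.ncard : ℝ) - 1 / 2 * (Fintype.card K : ℝ) ^ h| ≤
        ε * (Fintype.card K : ℝ) ^ h ∧
      |({f ∈ Near A h | Squarefree f ∧ Odd (numFactors f)}.ncard : ℝ) -
        1 / 2 * (1 - 1 / (Fintype.card K : ℝ)) * (Fintype.card K : ℝ) ^ h| ≤
          ε * (Fintype.card K : ℝ) ^ h ∧
      |({f ∈ Near A h | Squarefree f ∧ Even (numFactors f)}.ncard : ℝ) -
        1 / 2 * (1 - 1 / (Fintype.card K : ℝ)) * (Fintype.card K : ℝ) ^ h| ≤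
          ε * (Fintype.card K : ℝ) ^ h :=
  Pool.Agent.H560.SQ.square_top K ε hε

end Pool.Agent.Results.MP_73869e_nt.EverySquareBothParities
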