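import Mathlib
import Pool.Agent.H604.LD.FinalP
import Pool.Agent.H604.LD.App.SqF
import Pool.Agent.H604.MT.One
import Pool.Agent.H604.MT.Exp
import Pool.Agent.H604.MT.Bhk
import Pool.Agent.H604.MT.Mert

/-!
# Primes at logarithmic distance from squares over `F_q[X]`, `q` even

Let `K` be a finite field with an even number `q` of elements.  For a monic `a` of degree `d` let
`near H a` be the number of the irreducible polynomials `a² + r`, `deg r < H`: the primes at distance
less than `q ^ H` from the square `a²` (`|f| = q ^ deg f`, so `d` is the logarithm of `|a|` to the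
base `q`).  For all `H ≥ 2` the proportion of the `a` of degree `d` for which there is such a prime
is of the exact order `min(1, q ^ H / d)`.  In particular a positive proportion of the squares `a²`
have a prime at distance less than `q log_q |a|`, and for a positive proportion the number of the primes
at distance less than `q ^ H` has at least the expected order `q ^ H / d`, for every `H ≤ θ d` with
`q ^ H ≥ d`.  The mean value of the number of primes is known with a power saving error term; it is
`(q ^ H - q ^ ⌈H/2⌉) / (2 d)`: among the `q ^ H` values `r` the `q ^ ⌈H/2⌉` squares give no primes.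

The first moment is the Hardy–Littlewood asymptotic formula for the primes `a² + r`, uniform in `r`
(`Pool.Agent.H604.LD.s_bhqp`; see MP_f1a94e_nt.PowerSavingEvenChar for the authors), the second moment
is bounded by an upper bound sieve (Brun–Hooley weights and Mertens' theorem: helper524, helper183,
helper721, helper161, helper550), uniformly in the differences.
-/

set_option autoImplicit false

namespace Pool.Agent.Results.MP_73869e_nt.LogDistanceEvenChar

open Polynomial

/-- The number of the irreducible polynomials `a² + r` with `deg r < H`. -/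
noncomputable def near {K : Type} [Field K] (H : ℕ) (a : K[X]) : ℕ :=
  {r : K[X] | r.degree < (H : WithBot ℕ) ∧ Irreducible (a ^ 2 + r)}.ncard

/-- **Primes near squares over `F_q[X]`, `q` even.** -/
theorem result (K : Type) [Field K] [Fintype K] (hK : Even (Fintype.card K)) :
    ∃ c δ θ : ℝ, 0 < c ∧ 0 < δ ∧ 0 < θ ∧ ∃ d₀ : ℕ, ∀ d : ℕ, d₀ ≤ d →
      (∀ H : ℕ, 2 ≤ H →
        c * min 1 ((Fintype.card K : ℝ) ^ H / d) * (Fintype.card K : ℝ) ^ d ≤
          ({a : K[X] | a.Monic ∧ a.natDegree = d ∧ ∃ r : K[X], r.degree < (H : WithBot ℕ) ∧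
            Irreducible (a ^ 2 + r)}.ncard : ℝ) ∧
        ({a : K[X] | a.Monic ∧ a.natDegree = d ∧ ∃ r : K[X], r.degree < (H : WithBot ℕ) ∧
            Irreducible (a ^ 2 + r)}.ncard : ℝ) ≤
          min 1 ((Fintype.card K : ℝ) ^ H / d) * (Fintype.card K : ℝ) ^ d) ∧
      (∀ H : ℕ, 2 ≤ H → (H : ℝ) ≤ θ * d →
        c * min 1 ((Fintype.card K : ℝ) ^ H / d) * (Fintype.card K : ℝ) ^ d ≤
          ({a : K[X] | a.Monic ∧ a.natDegree = d ∧ 1 ≤ near H a ∧
            c * ((Fintype.card K : ℝ) ^ H / d) ≤ near H a}.ncard : ℝ)) ∧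
      (∀ H : ℕ, (H : ℝ) ≤ θ * d →
        |2 * (d : ℝ) * ∑ᶠ a ∈ {a : K[X] | a.Monic ∧ a.natDegree = d}, (near H a : ℝ) -
          ((Fintype.card K : ℝ) ^ H - (Fintype.card K : ℝ) ^ ((H + 1) / 2)) *
            (Fintype.card K : ℝ) ^ d| ≤ (Fintype.card K : ℝ) ^ ((1 - δ) * d)) := by
  have hchar : CharP K 2 := by
    obtain ⟨p, hp⟩ := CharP.exists K
    have := hp
    obtain ⟨m, hprime, hcard⟩ := FiniteField.card K p
    rw [hcard] at hK
    have : p = 2 := (Nat.Prime.even_iff hprime).1 (Nat.even_pow.1 hK).1
    rwa [this] at hp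
  exact Pool.Agent.H604.LD.Sq.final Pool.Agent.H604.LD.s_bhqp
    (Pool.Agent.H524.MT.One.tone Pool.Agent.H524.MT.Exp.expw) Pool.Agent.H524.MT.bhk
    Pool.Agent.H524.MT.mert K

end Pool.Agent.Results.MP_73869e_nt.LogDistanceEvenChar
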