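import Pool.Agent.H521.G.Presc2

open MeasureTheory Set Filter Topology
open scoped ENNReal ComplexConjugate

namespace Pool.Agent.Results.MP_73869e_nt.PrimesNearSquaresPrescribed

/-- A sequence of (Beurling) generalised primes `1 < p 0 < p 1 < ⋯ → ∞`. -/
structure GenPrimes (p : ℕ → ℝ) : Prop where
  one_lt : 1 < p 0
  strictMono : StrictMono p
  tendsto : Tendsto p atTop atTop

/-- The generalised integer `∏ p_j ^ (e j)` with exponent vector `e`. -/
noncomputable def genInt (p : ℕ → ℝ) (e : ℕ →₀ ℕ) : ℝ := e.prod fun j k => p j ^ k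

/-- `N_P(x)`, the number of generalised integers `≤ x`, counted with multiplicity. -/
noncomputable def countInts (p : ℕ → ℝ) (x : ℝ) : ℕ := Set.ncard {e : ℕ →₀ ℕ | genInt p e ≤ x}

/-- `π_P(x)`, the number of generalised primes `≤ x`. -/
noncomputable def countPrimes (p : ℕ → ℝ) (x : ℝ) : ℕ := Set.ncard {j : ℕ | p j ≤ x}

/-- The zeta function `ζ_P(s) = ∑ n^{-s}` over the generalised integers. -/
noncomputable def zetaP (p : ℕ → ℝ) (s : ℂ) : ℂ := ∑' e : ℕ →₀ ℕ, ((genInt p e : ℝ) : ℂ) ^ (-s)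

/-- The main term `∫_2^x (1 - ∑_{ρ ∈ Z} Re u^{ρ-1}) du / log u` of the prime counting function,
that is `li x - ∑_ρ li x^ρ` up to a constant, for a finite multiset `Z` of zeros. -/
noncomputable def primeMain (Z : Multiset ℂ) (x : ℝ) : ℝ :=
  ∫ u in (2 : ℝ)..x, (1 - (Z.map fun ρ => ((u : ℂ) ^ (ρ - 1)).re).sum) / Real.log u

/-- `p` is a system of generalised primes whose zeta function continues to `Re s > 1/2`
with only a simple pole at `1`, with zeros exactly `Z` there (with multiplicity) and with the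
Lindelöf bound, and with square-root error terms in the counting of generalised integers and
of generalised primes.  For `Z = 0` this is the Riemann hypothesis for `p`. -/
structure System (Z : Multiset ℂ) (p : ℕ → ℝ) : Prop where
  primes : GenPrimes p
  summable : ∀ s : ℂ, 1 < s.re → Summable fun e : ℕ →₀ ℕ => ((genInt p e : ℝ) : ℂ) ^ (-s)
  zeta : ∃ g : ℂ → ℂ, DifferentiableOn ℂ g {s : ℂ | 1 / 2 < s.re} ∧
    (∀ s : ℂ, 1 < s.re → (s - 1) * zetaP p s = (Z.map fun ρ => s - ρ).prod * Complex.exp (g s)) ∧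
    ∀ ε : ℝ, 0 < ε → ∃ C : ℝ, ∀ s : ℂ, 1 / 2 + ε ≤ s.re →
      ‖(Z.map fun ρ => s - ρ).prod * Complex.exp (g s)‖ ≤ C * (1 + ‖s‖) ^ (1 + ε)
  ints : ∃ κ : ℝ, 0 < κ ∧ ∀ ε : ℝ, 0 < ε → ∃ C : ℝ, ∀ x : ℝ, 1 ≤ x →
    |(countInts p x : ℝ) - κ * x| ≤ C * x ^ (1 / 2 + ε)
  pnt : ∀ ε : ℝ, 0 < ε → ∃ C : ℝ, ∀ x : ℝ, 2 ≤ x →
    |(countPrimes p x : ℝ) - primeMain Z x| ≤ C * x ^ (1 / 2 + ε)

/-- The number of generalised primes in `(x, y]`. -/
noncomputable def primesIn (p : ℕ → ℝ) (x y : ℝ) : ℕ := Set.ncard {k : ℕ | x < p k ∧ p k ≤ y}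

theorem ncard_eq {p : ℕ → ℝ} (hp : StrictMono p) {x y : ℝ} {A : Finset ℝ}
    (hA : ∀ u ∈ A, x < u ∧ u ≤ y) (h : ∀ u ∈ Ioc x y, (∃ k, p k = u) ↔ u ∈ A) :
    primesIn p x y = A.card := by
  have e : p '' {k : ℕ | x < p k ∧ p k ≤ y} = A := by
    ext u
    constructor
    · rintro ⟨k, hk, rfl⟩
      exact (h (p k) hk).1 ⟨k, rfl⟩
    · intro hu
      obtain ⟨k, rfl⟩ := (h u (hA u hu)).2 hu
      exact ⟨k, hA _ hu, rfl⟩
  unfold primesIn
  rw [← Set.ncard_image_of_injective _ hp.injective, e, Set.ncard_coe_finset]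

theorem system_of_sys {Z : Multiset ℂ} {p : ℕ → ℝ} (hS : Pool.Agent.H521.G.Sys Z p) :
    System Z p :=
  ⟨⟨by linarith [hS.three_le 0], hS.mono, hS.tendsto⟩, hS.summable, hS.zeta, hS.ints, hS.pnt⟩

open Pool.Agent.H521 Pool.Agent.H521.G in
/-- **Theorem.** For systems of generalised primes with the Riemann hypothesis (or any other finite
set of zeros) and square-root error terms, the numbers of primes in
`(n^2, n^2 + (log_2 n)^2]` are arbitrary, and more generally the set of primes in the union of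
short intervals to the right of the squares is arbitrary. -/
theorem result (Z : Multiset ℂ) (hZ : ∀ ρ ∈ Z, 1 / 2 < ρ.re ∧ ρ.re < 1)
    (hZc : Z.map conj = Z) :
    (∀ (h : ℕ → ℝ) (A : ℕ → Finset ℝ), (∀ n, 0 ≤ h n) → (∀ᶠ n : ℕ in atTop, h n ≤ n) →
      (∀ n : ℕ, ∀ x ∈ A n, (n : ℝ) ^ 2 < x ∧ x ≤ (n : ℝ) ^ 2 + h n) →
      (∀ σ : ℝ, 1 < σ → Summable fun n : ℕ => (h n + (A n).card) * (n : ℝ) ^ (-σ)) →
      ∃ p : ℕ → ℝ, System Z p ∧ ∀ᶠ n : ℕ in atTop,
        range p ∩ Ioc ((n : ℝ) ^ 2) ((n : ℝ) ^ 2 + h n) = A n) ∧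
    (∀ a : ℕ → ℕ, (∀ σ : ℝ, 1 < σ → Summable fun n : ℕ => (a n : ℝ) * (n : ℝ) ^ (-σ)) →
      ∃ p : ℕ → ℝ, System Z p ∧ ∀ᶠ n : ℕ in atTop,
        primesIn p ((n : ℝ) ^ 2) ((n : ℝ) ^ 2 + Real.logb 2 n ^ 2) = a n) := by
  have hZ1 : ∀ ρ ∈ Z, ρ.re < 1 := fun ρ h => (hZ ρ h).2
  constructor
  · intro h A h0 h1 hA hS
    obtain ⟨p, hp, hpA⟩ := presc_squares hZ1 hZc h0 h1 hA hS
    refine ⟨p, system_of_sys hp, ?_⟩
    filter_upwards [hpA] with n hn
    ext x
    constructor
    · rintro ⟨⟨k, hk⟩, hx⟩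
      exact (hn x hx).1 ⟨k, hk⟩
    · intro hx
      obtain ⟨k, hk⟩ := (hn x (hA n x hx)).2 hx
      exact ⟨⟨k, hk⟩, hA n x hx⟩
  · intro a ha
    set A : ℕ → Finset ℝ := fun n => if 2 ≤ n then
      (Finset.range (a n)).image fun l : ℕ => (n : ℝ) ^ 2 + 1 / ((l : ℝ) + 1) else ∅ with hAd
    have hcard : ∀ n, 2 ≤ n → (A n).card = a n := by
      intro n hn
      rw [hAd]
      simp only [if_pos hn]
      rw [Finset.card_image_of_injective, Finset.card_range]
      intro l l' hl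
      simp only [add_right_inj, one_div, inv_inj, add_left_inj, Nat.cast_inj] at hl
      exact hl
    have hcard' : ∀ n, (A n).card ≤ a n := by
      intro n
      by_cases hn : 2 ≤ n
      · exact (hcard n hn).le
      · rw [hAd]
        simp only [if_neg hn, Finset.card_empty]
        exact Nat.zero_le _
    have hlog : ∀ n : ℕ, 2 ≤ n → 1 ≤ Real.logb 2 n ^ 2 := by
      intro n hn
      have h1 : 1 ≤ Real.logb 2 n := by
        rw [Real.le_logb_iff_rpow_le (by norm_num) (by positivity), Real.rpow_one]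
        exact_mod_cast hn
      nlinarith
    have hAm : ∀ n : ℕ, ∀ x ∈ A n, (n : ℝ) ^ 2 < x ∧ x ≤ (n : ℝ) ^ 2 + Real.logb 2 n ^ 2 := by
      intro n x hx
      rw [hAd] at hx
      simp only at hx
      split_ifs at hx with hn
      · obtain ⟨l, -, rfl⟩ := Finset.mem_image.1 hx
        have h1 := hlog n hn
        have h2 : (0 : ℝ) < 1 / ((l : ℝ) + 1) := by positivity
        have h3 : 1 / ((l : ℝ) + 1) ≤ 1 := by
          rw [div_le_one (by positivity)]
          have : (0 : ℝ) ≤ l := Nat.cast_nonneg l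
          linarith
        constructor <;> linarith
      · exact absurd hx (Finset.notMem_empty x)
    have hlogo : ∀ ε : ℝ, 0 < ε → ∃ C : ℝ, 0 ≤ C ∧ ∀ n : ℕ,
        Real.logb 2 n ^ 2 ≤ C * (n : ℝ) ^ ε := by
      intro ε hε
      refine ⟨(1 / (ε / 2) / Real.log 2) ^ 2, by positivity, fun n => ?_⟩
      rcases Nat.eq_zero_or_pos n with rfl | hn
      · have h00 : Real.logb 2 ((0 : ℕ) : ℝ) = 0 := by simp
        rw [h00, zero_pow two_ne_zero]
        positivity
      · have hn0 : (0 : ℝ) < n := by exact_mod_cast hn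
        have h1 := Real.log_le_rpow_div hn0.le (by linarith : 0 < ε / 2)
        have h2 : 0 ≤ Real.log n := Real.log_natCast_nonneg n
        have h3 : 0 < Real.log 2 := Real.log_pos (by norm_num)
        have e : (n : ℝ) ^ ε = ((n : ℝ) ^ (ε / 2)) ^ 2 := by
          rw [← Real.rpow_natCast ((n : ℝ) ^ (ε / 2)) 2, ← Real.rpow_mul hn0.le]
          congr 1
          push_cast
          ring
        rw [e, ← mul_pow]
        apply pow_le_pow_left₀ (by unfold Real.logb; positivity)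
        unfold Real.logb
        calc Real.log n / Real.log 2 ≤ ((n : ℝ) ^ (ε / 2) / (ε / 2)) / Real.log 2 :=
              div_le_div_of_nonneg_right h1 h3.le
          _ = _ := by ring
    obtain ⟨p, hp, hpA⟩ := presc_squares hZ1 hZc (h := fun n => Real.logb 2 n ^ 2) (A := A)
      (fun n => sq_nonneg _) (by
        obtain ⟨C, hC0, hC⟩ := hlogo (1 / 2) (by norm_num)
        have h1 : Tendsto (fun n : ℕ => (n : ℝ) ^ (1 / 2 : ℝ)) atTop atTop :=
          (tendsto_rpow_atTop (by norm_num)).comp tendsto_natCast_atTop_atTop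
        filter_upwards [h1.eventually_ge_atTop C] with n hn
        refine (hC n).trans ?_
        have h2 : (n : ℝ) = (n : ℝ) ^ (1 / 2 : ℝ) * (n : ℝ) ^ (1 / 2 : ℝ) := by
          rw [← Real.sqrt_eq_rpow, Real.mul_self_sqrt (Nat.cast_nonneg n)]
        have h3 : 0 ≤ (n : ℝ) ^ (1 / 2 : ℝ) := by positivity
        calc C * (n : ℝ) ^ (1 / 2 : ℝ) ≤ (n : ℝ) ^ (1 / 2 : ℝ) * (n : ℝ) ^ (1 / 2 : ℝ) :=
              mul_le_mul_of_nonneg_right hn h3
          _ = n := h2.symm) hAm (by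
        intro σ hσ
        obtain ⟨C, hC0, hC⟩ := hlogo ((σ - 1) / 2) (by linarith)
        have hs : Summable fun n : ℕ => C * (n : ℝ) ^ (-((σ + 1) / 2)) :=
          (Real.summable_nat_rpow.2 (by linarith)).mul_left _
        refine Summable.of_nonneg_of_le (fun n => by positivity) (fun n => ?_)
          (hs.add (ha σ hσ))
        have h1 : 0 ≤ (n : ℝ) ^ (-σ) := by positivity
        have h2 : ((A n).card : ℝ) ≤ a n := by exact_mod_cast hcard' n
        have h3 : (n : ℝ) ^ ((σ - 1) / 2) * (n : ℝ) ^ (-σ) = (n : ℝ) ^ (-((σ + 1) / 2)) := by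
          rcases Nat.eq_zero_or_pos n with rfl | hn
          · rw [Nat.cast_zero, Real.zero_rpow (by linarith), Real.zero_rpow (by linarith),
              Real.zero_rpow (by linarith), zero_mul]
          · rw [← Real.rpow_add (by exact_mod_cast hn)]
            congr 1
            ring
        have h4 := mul_le_mul_of_nonneg_right (hC n) h1
        have h5 := mul_le_mul_of_nonneg_right h2 h1
        rw [mul_assoc, h3] at h4
        linarith)
    refine ⟨p, system_of_sys hp, ?_⟩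
    filter_upwards [hpA, eventually_ge_atTop 2] with n hn hn2
    rw [ncard_eq hp.mono (hAm n) hn, hcard n hn2]

end Pool.Agent.Results.MP_73869e_nt.PrimesNearSquaresPrescribed
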