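import Mathlib
import Pool.Agent.H532.SQ.Final
import Pool.Agent.H532.RM.Bft

/-!
# `(n², n² + (log₂ n)²]` in the random sieve that keeps the small primes: the statement fails

The question is whether every interval `(n², n² + (log₂ n)²]`, `n > 4765516`, contains a prime. Its
length `2.08... (log n)²` is slightly larger than the critical length `2 (log n)²` of Cramér's model
(`P(all) ≈ exp (- length / (2 log n))`), and in all sequential random models sieved by a FIXED set of
primes the statement holds for all large `n`, almost surely (earlier library results).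

We consider the model which combines the divisibility by the small primes (Granville) with the random
sieve of Banks, Ford and Tao (Large prime gaps and probabilistic models, Invent. Math. 2023): an
integer `n ∈ [2 ^ j, 2 ^ (j + 1))` is removed if it is divisible by a prime `p ≤ y j`, or if it is in
the random class `a p` modulo `p` for a prime `y j < p ≤ z(n)`, where `∏_{p ≤ z(n)} (1 - 1/p)` is
asymptotic to `1 / log n`, and `y j` is of the order of `log n` (`κ j ≤ y j = j ^ (1 + o(1))`,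
for example `y j = j`). In this model the statement of the question FAILS: almost surely, for all large
`N`, at least `N ^ (1 / 20)` of the `n ≤ N` have no element of the model in
`(n², n² + (log₂ n)²]`.

More generally, almost surely, for ALL polynomials `f` with integer coefficients, degree `d ≥ 1` and
positive leading coefficient and all `c < 2 e ^ (-γ) / d` there are infinitely many `n` such that
`(f(n), f(n) + c (log f(n))²]` contains no element; the number of these `n` with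
`X ≤ f(n) ≤ 4 X` is at least `X ^ (1/d - c e^γ / 2 - δ)` for all large `X`. For `f = X²` the critical
constant `c = e ^ (-γ) = 0.56...` is larger than `1 / (4 (log 2)²) = 0.52...`, the constant of the
question. The case `d = 1` is Granville's `2 e ^ (-γ)`.
-/

open Finset MeasureTheory ProbabilityTheory Filter Polynomial
open scoped ENNReal Topology

namespace Pool.Agent.Results.MP_73869e_nt.SquaresInTheHybridSieve

/-- `A p`, `p` prime, are independent random variables and `A p` is uniformly distributed on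
`{0, …, p - 1}`. -/
structure RandomClasses {Ω : Type} [MeasurableSpace Ω] (μ : Measure Ω) (A : ℕ → Ω → ℕ) :
    Prop where
  meas : ∀ p, Measurable (A p)
  indep : iIndepFun (fun p : Nat.Primes => A p) μ
  unif : ∀ p : ℕ, p.Prime → ∀ r < p, μ {ω | A p ω = r} = (p : ℝ≥0∞)⁻¹

/-- `V z = ∏_{p ≤ z} (1 - 1 / p)`. -/
noncomputable def V (z : ℕ) : ℝ := ∏ p ∈ (range (z + 1)).filter Nat.Prime, (1 - 1 / (p : ℝ))

/-- The integers `n` are sieved by the primes up to `z n`; this leaves the density `1 / log n`. -/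
structure SievingLimit (z : ℕ → ℕ) : Prop where
  mono : Monotone z
  lim : Tendsto (fun n : ℕ => V (z n) * Real.log n) atTop (𝓝 1)

/-- The sieving limit of Banks, Ford and Tao: the largest `z` with `V z ≥ 1 / log n`. -/
noncomputable def banksFordTao (n : ℕ) : ℕ := sSup {z : ℕ | 1 / Real.log n ≤ V z}

/-- The limit between the true classes and the random classes, for `2 ^ j ≤ n < 2 ^ (j + 1)`: it is
at least `κ j` and it is `j ^ (1 + o(1))`. -/
structure Cut (y : ℕ → ℕ) : Prop where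
  low : ∃ κ : ℝ, 0 < κ ∧ ∀ᶠ j : ℕ in atTop, κ * j ≤ y j
  lim : Tendsto (fun j : ℕ => Real.log (y j) / Real.log j) atTop (𝓝 1)

/-- The hybrid sieve: the integers `n` which, for all primes `p ≤ z n`, are not divisible by `p` if
`p ≤ y j`, and are not in the class `a p` modulo `p` if `p > y j`, where
`2 ^ j ≤ n < 2 ^ (j + 1)`. -/
def hybrid (z y : ℕ → ℕ) (a : ℕ → ℕ) : Set ℕ :=
  {n | ∀ p : ℕ, p.Prime → p ≤ z n → ¬ n ≡ (if p ≤ y (Nat.log 2 n) then 0 else a p) [MOD p]}

/-- The number `a(n)` of the question for the set `R` in place of the primes: the number of the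
elements `r` of `R` with `n² < r ≤ n² + (log₂ n)²`. -/
noncomputable def aNumber (R : Set ℕ) (n : ℕ) : ℕ :=
  {r : ℕ | r ∈ R ∧ n ^ 2 < r ∧ (r : ℝ) ≤ (n : ℝ) ^ 2 + Real.logb 2 n ^ 2}.ncard

/-- The `n` for which the interval `(f(n), f(n) + c (log f(n))²]` is contained in `[X, 4 X]` and
contains no element of `R`. -/
def emptyAfter (R : Set ℕ) (f : ℤ[X]) (c X : ℝ) : Set ℕ :=
  {n : ℕ | X ≤ (f.eval (n : ℤ) : ℤ) ∧
    ((f.eval (n : ℤ) : ℤ) : ℝ) + c * Real.log (f.eval (n : ℤ) : ℤ) ^ 2 ≤ 4 * X ∧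
    ∀ r ∈ R, ((f.eval (n : ℤ) : ℤ) : ℝ) < r →
      ((f.eval (n : ℤ) : ℤ) : ℝ) + c * Real.log (f.eval (n : ℤ) : ℤ) ^ 2 < r}

lemma cut_id : Cut (fun j => j) := by
  refine ⟨⟨1, one_pos, Eventually.of_forall fun j => by rw [one_mul]⟩, ?_⟩
  refine tendsto_const_nhds.congr' ?_
  filter_upwards [Pool.Agent.H532.SQ.logj_tendsto.eventually_ge_atTop 1] with j hj
  rw [div_self (by linarith)]

/-- from squares to the numbers of the question -/
lemma sub_empty (R : Set ℕ) (N : ℕ) (hN : 1 ≤ N) :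
    emptyAfter R (X ^ 2 : ℤ[X]) (1 / (4 * Real.log 2 ^ 2)) ((N : ℝ) ^ 2 / 4) ⊆
      {n : ℕ | n ≤ N ∧ aNumber R n = 0} := by
  rintro n ⟨h1, h2, h3⟩
  have hl2 : 0 < Real.log 2 := Real.log_pos (by norm_num)
  have hN1 : (1 : ℝ) ≤ N := by exact_mod_cast hN
  have he : (((X ^ 2 : ℤ[X]).eval (n : ℤ) : ℤ) : ℝ) = (n : ℝ) ^ 2 := by
    rw [eval_pow, eval_X]; push_cast; rfl
  rw [he] at h1 h2 h3
  have hn0 : (0 : ℝ) < n := by
    rcases Nat.eq_zero_or_pos n with h | h
    · exfalso
      rw [h, Nat.cast_zero] at h1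
      nlinarith
    · exact_mod_cast h
  have hlog : 1 / (4 * Real.log 2 ^ 2) * Real.log ((n : ℝ) ^ 2) ^ 2 = Real.logb 2 n ^ 2 := by
    rw [Real.log_pow, Real.logb]
    push_cast
    field_simp
    ring
  rw [hlog] at h2 h3
  have hsq := sq_nonneg (Real.logb 2 (n : ℝ))
  refine ⟨?_, ?_⟩
  · have h4 : (n : ℝ) ^ 2 ≤ (N : ℝ) ^ 2 := by linarith
    have h5 : (n : ℝ) ≤ N := by
      exact le_of_sq_le_sq h4 (Nat.cast_nonneg _)
    exact_mod_cast h5
  · unfold aNumber
    have : {r : ℕ | r ∈ R ∧ n ^ 2 < r ∧ (r : ℝ) ≤ (n : ℝ) ^ 2 + Real.logb 2 n ^ 2} = ∅ := by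
      rw [Set.eq_empty_iff_forall_notMem]
      rintro r ⟨hr, hr1, hr2⟩
      have := h3 r hr (by exact_mod_cast hr1)
      linarith
    rw [this, Set.ncard_empty]

/-- **The intervals `(n², n² + (log₂ n)²]`, and the intervals after the values of all polynomials,
in the hybrid sieve.** -/
theorem result :
    -- the model exists
    (∃ μ : Measure (ℕ → ℕ), IsProbabilityMeasure μ ∧ RandomClasses μ (fun p ω => ω p)) ∧
    SievingLimit banksFordTao ∧ Cut (fun j => j) ∧
    ∀ (Ω : Type) [MeasurableSpace Ω] (μ : Measure Ω)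
      [IsProbabilityMeasure μ] (A : ℕ → Ω → ℕ), RandomClasses μ A → ∀ z : ℕ → ℕ,
      SievingLimit z → ∀ y : ℕ → ℕ, Cut y → ∀ᵐ ω ∂μ,
        -- the intervals of the question
        (∀ᶠ N : ℕ in atTop, (N : ℝ) ^ ((1 : ℝ) / 20) ≤
          ({n : ℕ | n ≤ N ∧ aNumber (hybrid z y (fun p => A p ω)) n = 0}.ncard : ℝ)) ∧
        -- all polynomials
        ∀ f : ℤ[X], 0 < f.natDegree → 0 < f.leadingCoeff → ∀ c δ : ℝ, 0 < c → 0 < δ →
          c / (2 * Real.exp (-Real.eulerMascheroniConstant)) + δ ≤ 1 / f.natDegree →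
          ∀ᶠ X : ℝ in atTop,
            X ^ (1 / f.natDegree - c / (2 * Real.exp (-Real.eulerMascheroniConstant)) - δ) ≤
              ((emptyAfter (hybrid z y (fun p => A p ω)) f c X).ncard : ℝ) := by
  have hR : ∀ {Ω : Type} [MeasurableSpace Ω] {μ : Measure Ω} {A : ℕ → Ω → ℕ},
      RandomClasses μ A → Pool.Agent.H532.RM.RandomClasses μ A := fun h =>
    ⟨h.meas, h.indep, h.unif⟩
  refine ⟨?_, ⟨Pool.Agent.H532.RM.zBFT_mono, Pool.Agent.H532.RM.zBFT_lim⟩, cut_id, ?_⟩
  · obtain ⟨μ, h1, h2⟩ := Pool.Agent.H532.RM.exists_randomClasses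
    exact ⟨μ, h1, ⟨h2.meas, h2.indep, h2.unif⟩⟩
  · intro Ω _ μ _ A hA z hz y hy
    have hy' : Pool.Agent.H532.SQ.Cut y := ⟨hy.low, hy.lim⟩
    filter_upwards [Pool.Agent.H532.SQ.poly_all hy' hz.mono hz.lim μ A (hR hA)] with ω hω
    refine ⟨?_, hω⟩
    obtain ⟨g, hg⟩ : ∃ g : ℝ, g = Real.exp (-Real.eulerMascheroniConstant) := ⟨_, rfl⟩
    have hgb := Pool.Agent.H532.SQ.gamma_bound
    rw [← hg] at hω hgb
    have hg0 : 0 < g := lt_trans (by norm_num) hgb
    have hl2a := Real.log_two_gt_d9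
    have hl2 : 0 < Real.log 2 := by linarith
    obtain ⟨c, hc⟩ : ∃ c : ℝ, c = 1 / (4 * Real.log 2 ^ 2) := ⟨_, rfl⟩
    have hc0 : 0 < c := by rw [hc]; positivity
    have hcb : c ≤ 0.52035 := by
      rw [hc, div_le_iff₀ (by positivity)]
      have : (0.6931471803 : ℝ) ^ 2 ≤ Real.log 2 ^ 2 := by gcongr
      nlinarith
    have hcg : c / (2 * g) ≤ 0.47352 := by
      rw [div_le_iff₀ (by positivity)]
      have : 1 / 1.82 * (2 * 0.47352 : ℝ) ≤ g * (2 * 0.47352) := by gcongr
      norm_num at this ⊢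
      linarith
    have hdeg : (X ^ 2 : ℤ[X]).natDegree = 2 := natDegree_X_pow 2
    have hlead : (X ^ 2 : ℤ[X]).leadingCoeff = 1 := leadingCoeff_X_pow 2
    have h1 := hω (X ^ 2) (by rw [hdeg]; norm_num) (by rw [hlead]; norm_num) c (1 / 10000) hc0
      (by norm_num) (by
        rw [hdeg]
        push_cast
        norm_num at hcg ⊢
        linarith)
    rw [hdeg] at h1
    have h2 : Tendsto (fun N : ℕ => (N : ℝ) ^ 2 / 4) atTop atTop :=
      ((tendsto_pow_atTop (by norm_num)).comp tendsto_natCast_atTop_atTop).atTop_div_const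
        (by norm_num)
    have h3 : ∀ᶠ N : ℕ in atTop, (4 : ℝ) ≤ (N : ℝ) ^ ((1 : ℝ) / 1000) :=
      ((tendsto_rpow_atTop (by norm_num)).comp tendsto_natCast_atTop_atTop).eventually_ge_atTop 4
    filter_upwards [h2.eventually h1, h3, eventually_ge_atTop 1] with N h4 h5 h6
    have hN1 : (1 : ℝ) ≤ N := by exact_mod_cast h6
    have hN0 : (0 : ℝ) < N := by linarith
    have hfin : {n : ℕ | n ≤ N ∧ aNumber (hybrid z y (fun p => A p ω)) n = 0}.Finite :=
      (Set.finite_Iic N).subset fun n hn => hn.1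
    have h7 := Set.ncard_le_ncard (sub_empty (hybrid z y (fun p => A p ω)) N h6) hfin
    rw [← hc] at h7
    have h8 : ((emptyAfter (hybrid z y (fun p => A p ω)) (X ^ 2) c ((N : ℝ) ^ 2 / 4)).ncard : ℝ) ≤
        ({n : ℕ | n ≤ N ∧ aNumber (hybrid z y (fun p => A p ω)) n = 0}.ncard : ℝ) := by
      exact_mod_cast h7
    refine le_trans ?_ (h4.trans h8)
    have h9 : (0.0263 : ℝ) ≤ 1 / (2 : ℕ) - c / (2 * g) - 1 / 10000 := by
      push_cast
      norm_num at hcg ⊢
      linarith
    obtain ⟨E, hE⟩ : ∃ E : ℝ, E = 1 / (2 : ℕ) - c / (2 * g) - 1 / 10000 := ⟨_, rfl⟩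
    rw [← hE] at h9 ⊢
    have hN4 : (1 : ℝ) ≤ (N : ℝ) ^ 2 / 4 := by
      have h10 : (4 : ℝ) ≤ N := by
        refine h5.trans ?_
        calc (N : ℝ) ^ ((1 : ℝ) / 1000) ≤ (N : ℝ) ^ (1 : ℝ) :=
              Real.rpow_le_rpow_of_exponent_le hN1 (by norm_num)
          _ = N := Real.rpow_one _
      nlinarith
    calc (N : ℝ) ^ ((1 : ℝ) / 20) ≤ (N : ℝ) ^ ((1.999 : ℝ) * 0.0263) :=
          Real.rpow_le_rpow_of_exponent_le hN1 (by norm_num)
      _ = ((N : ℝ) ^ (1.999 : ℝ)) ^ (0.0263 : ℝ) := Real.rpow_mul hN0.le _ _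
      _ ≤ ((N : ℝ) ^ 2 / 4) ^ (0.0263 : ℝ) := by
          refine Real.rpow_le_rpow (by positivity) ?_ (by norm_num)
          rw [le_div_iff₀ (by norm_num)]
          calc (N : ℝ) ^ (1.999 : ℝ) * 4 ≤ (N : ℝ) ^ (1.999 : ℝ) * (N : ℝ) ^ ((1 : ℝ) / 1000) := by
                gcongr
            _ = (N : ℝ) ^ (2 : ℝ) := by
                rw [← Real.rpow_add hN0]; norm_num
            _ = (N : ℝ) ^ 2 := by norm_num
      _ ≤ ((N : ℝ) ^ 2 / 4) ^ E := Real.rpow_le_rpow_of_exponent_le hN4 h9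

end Pool.Agent.Results.MP_73869e_nt.SquaresInTheHybridSieve
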